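import Pool.Agent.SHA.StmtsB

/-!
# B_APG: approximation of every positive number by exact systems
-/

set_option autoImplicit false

namespace Pool.Agent.SHA.H22

theorem sys_add (syu : SYUStmt) {a : ℕ} {ρ : ℝ} (h : Sys a ρ) (j : ℕ) : Sys (a + j) (ρ + j) := by
  induction j with
  | zero => simpa using h
  | succ j ih =>
    have := syu _ _ ih
    have e : ρ + ((j + 1 : ℕ) : ℝ) = ρ + j + 1 := by push_cast; ring
    rw [e]
    exact this

theorem apg (syu : SYUStmt) (syc : SYCStmt) (apx : APXStmt) : APGStmt := by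
  intro n x hx
  rcases le_or_gt 1 x with h1 | h1
  · obtain ⟨j, hj⟩ : ∃ j : ℕ, ⌊x⌋₊ = j + 1 :=
      ⟨⌊x⌋₊ - 1, by have := Nat.le_floor (α := ℝ) (n := 1) (a := x) (by simpa using h1); omega⟩
    have hl : ((j + 1 : ℕ) : ℝ) ≤ x := hj ▸ Nat.floor_le (by linarith)
    have hu : x < ((j + 1 : ℕ) : ℝ) + 1 := hj ▸ Nat.lt_floor_add_one x
    push_cast at hl hu
    obtain ⟨⟨a, z, ha, hs, hz1, hz2, hz3⟩, -⟩ := apx n (x - j) (by linarith) (by linarith)
    refine ⟨a + j, z + j, ?_, ?_, by linarith, by linarith⟩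
    · have hx1 : 0 < 1 / x := by positivity
      have : (a : ℝ) ≤ 3 * n + 3 := by exact_mod_cast ha
      push_cast
      linarith
    · have := sys_add syu hs j
      have e : z + (j : ℝ) + 1 = z + 1 + j := by ring
      rw [e]
      exact this
  · set u := 1 / x with hu0
    have hux : u * x = 1 := by rw [hu0]; field_simp
    have hu1 : 1 < u := by rw [hu0, lt_div_iff₀ hx]; linarith
    obtain ⟨j, hj⟩ : ∃ j : ℕ, ⌊u⌋₊ = j + 1 :=
      ⟨⌊u⌋₊ - 1, by have := Nat.le_floor (α := ℝ) (n := 1) (a := u) (by simpa using hu1.le); omega⟩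
    have hl : ((j + 1 : ℕ) : ℝ) ≤ u := hj ▸ Nat.floor_le (by linarith)
    have hu : u < ((j + 1 : ℕ) : ℝ) + 1 := hj ▸ Nat.lt_floor_add_one u
    push_cast at hl hu
    obtain ⟨-, a, z, ha, hs, hz1, hz2, hz3⟩ := apx n (u - j) (by linarith) (by linarith)
    have hj0 : (0 : ℝ) ≤ j := Nat.cast_nonneg j
    have hw1 : 1 ≤ z + j := by linarith
    have hw0 : 0 < z + j := by linarith
    have hsys := syc _ _ (by linarith : (1 : ℝ) < z + 1 + j) (sys_add syu hs j)
    refine ⟨a + j, 1 / (z + j), ?_, ?_, ?_, ?_⟩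
    · have : (a : ℝ) ≤ 3 * n + 3 := by exact_mod_cast ha
      push_cast
      linarith
    · have e : 1 / (z + (j : ℝ)) + 1 = (z + 1 + j) / (z + 1 + j - 1) := by
        have : z + 1 + (j : ℝ) - 1 = z + j := by ring
        rw [this]
        field_simp
        ring
      rw [e]
      exact hsys
    · rw [le_div_iff₀ hw0]
      have : x * (z + j) ≤ x * u := mul_le_mul_of_nonneg_left (by linarith) hx.le
      linarith [mul_comm u x]
    · rw [div_le_iff₀ hw0]
      have h2 : (0 : ℝ) ≤ (1 / 2) ^ n := by positivity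
      have h3 : x * u ≤ x * (z + j + (1 / 2) ^ n) := mul_le_mul_of_nonneg_left (by linarith) hx.le
      have h4 : x * (1 / 2) ^ n ≤ 1 * (1 / 2) ^ n := mul_le_mul_of_nonneg_right h1.le h2
      have h5 : (1 / 2 : ℝ) ^ n * 1 ≤ (1 / 2) ^ n * (z + j) := mul_le_mul_of_nonneg_left hw1 h2
      nlinarith [mul_comm u x]

end Pool.Agent.SHA.H22
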