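import Pool.Agent.SHA.Stmts

set_option autoImplicit false

namespace Pool.Agent.SHA.H22

open Pool.Agent.Helper18_Helly

universe u

theorem value_exists_least {s : ℕ} {n₁ n₂ : ℕ∞} {w : ℕ} (h : IsValue.{u} s n₁ n₂ (w : ℕ∞)) :
    ∃ v : ℕ, IsLeast {n | IsValue.{u} s n₁ n₂ n} (v : ℕ∞) ∧ v ≤ w := by
  classical
  have hex : ∃ v : ℕ, IsValue.{u} s n₁ n₂ (v : ℕ∞) := ⟨w, h⟩
  refine ⟨Nat.find hex, ⟨Nat.find_spec hex, ?_⟩, Nat.find_min' hex h⟩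
  intro n hn
  rcases eq_or_ne n ⊤ with h1 | h1
  · rw [h1]
    exact le_top
  · obtain ⟨m, rfl⟩ := ENat.ne_top_iff_exists.1 h1
    exact_mod_cast Nat.find_min' hex hn

theorem sharp (hSHP : SHPStmt) {s : ℕ} (hs : 1 ≤ s) (v : ℕ)
    (hv : IsValue.{u} s ((s + ⌈2 * √(s : ℝ)⌉₊ : ℕ) : ℕ∞) ((s + ⌈2 * √(s : ℝ)⌉₊ : ℕ) : ℕ∞) (v : ℕ∞)) :
    lead s ((s + ⌈2 * √(s : ℝ)⌉₊ : ℕ) : ℕ∞) ((s + ⌈2 * √(s : ℝ)⌉₊ : ℕ) : ℕ∞) + √(s : ℝ) - 1 ≤ (v : ℝ) := by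
  refine (hSHP s _ hs rfl).trans ?_
  obtain ⟨U, X₁, X₂, C₁, C₂, h₁, h₂, e₁, e₂, e⟩ := hv
  have h3 := lower_bound h₁ h₂ (σ := s)
  rw [e₁, e₂, e, min_self] at h3
  have h4 : s + ⌈2 * √(s : ℝ)⌉₊ - 1 ≤ v := by
    rcases le_total ((s + ⌈2 * √(s : ℝ)⌉₊ : ℕ) : ℕ∞) ((s + ⌈2 * √(s : ℝ)⌉₊ - 1 : ℕ) : ℕ∞) with h5 | h5
    · rw [min_eq_left h5] at h3
      have h6 : s + ⌈2 * √(s : ℝ)⌉₊ ≤ v := by exact_mod_cast h3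
      omega
    · rw [min_eq_right h5] at h3
      exact_mod_cast h3
  exact_mod_cast h4

/-- The final theorem. -/
theorem fin (hLOA : LOAStmt.{u}) (hUPB : UPBStmt.{u}) (hSHP : SHPStmt) (s : ℕ) (hs : 1 ≤ s) :
    (∀ n₁ n₂ : ℕ∞, (s : ℕ∞) ≤ n₁ → (s : ℕ∞) ≤ n₂ →
      ∃ v : ℕ, IsLeast {n | IsValue.{u} s n₁ n₂ n} (v : ℕ∞) ∧
        |(v : ℝ) - lead s n₁ n₂| ≤ 4 * √(s : ℝ)) ∧
    (∀ m : ℕ, m = s + ⌈2 * √(s : ℝ)⌉₊ → ∀ v : ℕ, IsValue.{u} s m m v →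
      lead s m m + √(s : ℝ) - 1 ≤ (v : ℝ)) := by
  refine ⟨fun n₁ n₂ h1 h2 => ?_, ?_⟩
  · obtain ⟨w, hw, hwb⟩ := hUPB s n₁ n₂ hs h1 h2
    obtain ⟨v, hv, hvw⟩ := value_exists_least hw
    refine ⟨v, hv, ?_⟩
    have h3 := hLOA s n₁ n₂ v hs h1 h2 hv.1
    have h4 : (v : ℝ) ≤ w := by exact_mod_cast hvw
    rw [abs_le]
    constructor <;> linarith
  · rintro m rfl v hv
    exact sharp hSHP hs v hv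

theorem finStmt (hLOA : LOAStmt.{u}) (hUPB : UPBStmt.{u}) (hSHP : SHPStmt) : FINStmt.{u} := by
  intro s hs
  obtain ⟨h1, h2⟩ := fin hLOA hUPB hSHP s hs
  exact ⟨h1, s + ⌈2 * √(s : ℝ)⌉₊, by omega, fun v hv => h2 _ rfl v hv.1⟩

end Pool.Agent.SHA.H22
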