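import Pool.Agent.SHA.StmtsB
import Pool.Agent.Helper22_SHA.FIN

set_option autoImplicit false

namespace Pool.Agent.SHA.H22

open Pool.Agent.Helper18_Helly

universe u

/-- The final theorem of part B. -/
theorem finB (hLOE : LOEStmt.{u}) (hUPL : UPLStmt.{u}) (hUPR : UPRStmt.{u}) (s : ℕ) (hs : 2 ≤ s)
    (n₁ n₂ : ℕ∞) (h1 : (s : ℕ∞) < n₁) (h2 : (s : ℕ∞) < n₂) :
    ∃ v : ℕ, IsLeast {n | IsValue.{u} s n₁ n₂ n} (v : ℕ∞) ∧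
      lead s n₁ n₂ - 23 - 10 / theta s n₁ n₂ ^ 2 ≤ (v : ℝ) ∧
      (v : ℝ) ≤ lead s n₁ n₂ + 2 + cost s n₁ + cost s n₂ ∧
      ∀ a : ℕ, 1 ≤ a → (∀ M : ℕ, n₁ = M → M < a * s ∧ ∃ c : ℕ, c * M = a * s) →
        (∀ M : ℕ, n₂ = M → M < a * s ∧ ∃ c : ℕ, c * M = a * s) →
        (v : ℝ) ≤ lead s n₁ n₂ + 2 * a := by
  obtain ⟨w, hw, hwb⟩ := hUPL s n₁ n₂ hs h1 h2
  obtain ⟨v, hv, hvw⟩ := value_exists_least hw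
  have h4 : (v : ℝ) ≤ w := by exact_mod_cast hvw
  refine ⟨v, hv, hLOE s n₁ n₂ v hs h1 h2 hv.1, h4.trans hwb, ?_⟩
  intro a ha c1 c2
  obtain ⟨w', hw', hwb'⟩ := hUPR s a n₁ n₂ hs ha h1 h2 c1 c2
  have h5 : (v : ℕ∞) ≤ (w' : ℕ∞) := hv.2 hw'
  have h6 : v ≤ w' := by exact_mod_cast h5
  have h7 : (v : ℝ) ≤ w' := by exact_mod_cast h6
  exact h7.trans hwb'

end Pool.Agent.SHA.H22
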