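import Pool.Agent.SHA.Stmts

set_option autoImplicit false

namespace Pool.Agent.SHA.H22

open Pool.Agent.Helper18_Helly

universe u

theorem loa_small (hBAS : BASStmt) {s : ℕ} {n₁ n₂ : ℕ∞} {v : ℕ} (hs : 1 ≤ s) (h1 : (s : ℕ∞) ≤ n₁)
    (h2 : (s : ℕ∞) ≤ n₂) (h33 : s ≤ 33) (hv : IsValue.{u} s n₁ n₂ (v : ℕ∞)) :
    lead s n₁ n₂ - 4 * √(s : ℝ) ≤ v := by
  obtain ⟨U, X₁, X₂, C₁, C₂, a₁, a₂, e₁, e₂, e⟩ := hv
  have h3 := lower_bound a₁ a₂ (σ := s)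
  rw [e₁, e₂, e] at h3
  obtain ⟨b0, b1, b2, b3⟩ := hBAS s n₁ n₂ hs h1 h2
  have hsq : 0 ≤ √(s : ℝ) := Real.sqrt_nonneg _
  rcases le_total (min n₁ n₂) ((s + ⌈2 * √(s : ℝ)⌉₊ - 1 : ℕ) : ℕ∞) with h4 | h4
  · rw [min_eq_left h4] at h3
    rcases le_total n₁ n₂ with h5 | h5
    · rw [min_eq_left h5] at h3
      obtain ⟨N, hN⟩ := ENat.ne_top_iff_exists.1 (ne_top_of_le_ne_top (ENat.natCast_ne_top v) h3)
      have h6 := b2 N hN.symm
      rw [← hN] at h3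
      have h7 : (N : ℝ) ≤ v := by exact_mod_cast h3
      linarith
    · rw [min_eq_right h5] at h3
      obtain ⟨N, hN⟩ := ENat.ne_top_iff_exists.1 (ne_top_of_le_ne_top (ENat.natCast_ne_top v) h3)
      have h6 := b3 N hN.symm
      rw [← hN] at h3
      have h7 : (N : ℝ) ≤ v := by exact_mod_cast h3
      linarith
  · rw [min_eq_right h4] at h3
    have h5 : s + ⌈2 * √(s : ℝ)⌉₊ - 1 ≤ v := by exact_mod_cast h3
    have h6 : 2 * √(s : ℝ) ≤ ⌈2 * √(s : ℝ)⌉₊ := Nat.le_ceil _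
    have h7 : ((s + ⌈2 * √(s : ℝ)⌉₊ : ℕ) : ℝ) ≤ ((v + 1 : ℕ) : ℝ) := by
      exact_mod_cast (by omega : s + ⌈2 * √(s : ℝ)⌉₊ ≤ v + 1)
    push_cast at h7
    have hs0 : (0 : ℝ) ≤ s := Nat.cast_nonneg s
    have h8 : lead s n₁ n₂ ≤ 2 * s := by
      rw [lead]
      nlinarith
    have h9 : √(s : ℝ) ^ 2 = s := Real.sq_sqrt hs0
    have h10 : 1 ≤ √(s : ℝ) := Real.one_le_sqrt.2 (by exact_mod_cast hs)
    have h11 : √(s : ℝ) ≤ 5.8 := by
      rw [Real.sqrt_le_left (by norm_num)]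
      have h12 : (s : ℝ) ≤ 33 := by exact_mod_cast h33
      norm_num
      linarith
    nlinarith [mul_nonneg (sub_nonneg.2 h10) (sub_nonneg.2 h11)]

open Classical in
theorem loa (hLOC : LOCStmt.{u}) (hLIM : LIMStmt) (hBAS : BASStmt) : LOAStmt.{u} := by
  intro s n₁ n₂ v hs h1 h2 hv
  rcases le_or_gt s 33 with h33 | h33
  · exact loa_small hBAS hs h1 h2 h33 hv
  · obtain ⟨U, X₁, X₂, C₁, C₂, a₁, a₂, e₁, e₂, e⟩ := hv
    have key : lead s n₁ n₂ ≤ v + 4 * √(s : ℝ) := by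
      refine hLIM s n₁ n₂ _ hs h1 h2 ?_
      intro N₁ N₂ c1 c2 c3 c4
      obtain ⟨S₁, d1, d2, d3⟩ := exists_finset_core a₁ (σ := s) (n := N₁) (by rw [e₁]; exact c3)
      obtain ⟨S₂, f1, f2, f3⟩ := exists_finset_core a₂ (σ := s) (n := N₂) (by rw [e₂]; exact c4)
      have h := le_helly_sum a₁ a₂ S₁ S₂ d1 f1 d3 f3
        (N := ⌈lead s (N₁ : ℕ∞) (N₂ : ℕ∞) - 4 * √(s : ℝ)⌉₊) (by
          intro Q hQ hQ2
          obtain ⟨T, g1, g2, g3⟩ := hLOC U (X₁ ∪ X₂) s S₁ S₂ Q h33 (by rw [d2]; exact c1)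
            (by rw [f2]; exact c2) (d1.trans Set.subset_union_left) (f1.trans Set.subset_union_right)
            hQ hQ2
          rw [d2, f2] at g3
          have g4 := Nat.ceil_le.2 g3
          obtain ⟨T', g5, g6⟩ := Finset.exists_subset_card_eq g4
          refine ⟨(T' : Set U), (Finset.coe_subset.2 g5).trans g1, ?_, ?_⟩
          · rw [Set.encard_coe_eq_coe_finsetCard, g6]
          · intro O hO
            have g7 : (T' : Set U) ∩ O = ((T'.filter (fun f => f ∈ O) : Finset U) : Set U) := by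
              ext z
              simp only [Set.mem_inter_iff, Finset.mem_coe, Finset.coe_filter, Set.mem_ofPred_eq]
            rw [g7, Set.encard_coe_eq_coe_finsetCard]
            have g8 := (Finset.card_le_card (Finset.filter_subset_filter (fun f => f ∈ O) g5)).trans
              (g2 O hO)
            exact_mod_cast g8)
      rw [e] at h
      have h' : ⌈lead s (N₁ : ℕ∞) (N₂ : ℕ∞) - 4 * √(s : ℝ)⌉₊ ≤ v := by exact_mod_cast h
      have h3 := Nat.le_ceil (lead s (N₁ : ℕ∞) (N₂ : ℕ∞) - 4 * √(s : ℝ))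
      have h4 : ((⌈lead s (N₁ : ℕ∞) (N₂ : ℕ∞) - 4 * √(s : ℝ)⌉₊ : ℕ) : ℝ) ≤ v := by exact_mod_cast h'
      linarith
    linarith

end Pool.Agent.SHA.H22
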