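import Pool.Agent.SHA.StmtsB

set_option autoImplicit false

namespace Pool.Agent.SHA.H22

open Pool.Agent.Helper18_Helly

universe u

open Classical in
theorem loe (hLOB : LOBStmt.{u}) (hLIC : LICStmt) (hLOA : LOAStmt.{u}) (hTHP : THPStmt) :
    LOEStmt.{u} := by
  intro s n₁ n₂ v hs h1 h2 hv
  have hs1 : 1 ≤ s := by omega
  have hθ := hTHP s n₁ n₂ hs1 h1 h2
  rcases le_or_gt s 33 with h33 | h33
  · have h3 := hLOA s n₁ n₂ v hs1 h1.le h2.le hv
    have h4 : √(s : ℝ) ≤ 5.75 := by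
      rw [Real.sqrt_le_left (by norm_num)]
      have h5 : (s : ℝ) ≤ 33 := by exact_mod_cast h33
      norm_num
      linarith
    have h5 : 0 ≤ 10 / theta s n₁ n₂ ^ 2 := by positivity
    linarith
  · obtain ⟨U, X₁, X₂, C₁, C₂, a₁, a₂, e₁, e₂, e⟩ := hv
    have hcont : ContinuousAt (fun t : ℝ => (s : ℝ) * (1 + t) - 4 - 10 / t ^ 2) (theta s n₁ n₂) := by
      have h6 : theta s n₁ n₂ ^ 2 ≠ 0 := (pow_pos hθ 2).ne'
      refine ContinuousAt.sub (ContinuousAt.sub ?_ continuousAt_const) ?_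
      · exact continuousAt_const.mul (continuousAt_const.add continuousAt_id)
      · exact continuousAt_const.div (continuousAt_id.pow 2) h6
    have key := hLIC s n₁ n₂ (fun t : ℝ => (s : ℝ) * (1 + t) - 4 - 10 / t ^ 2) v hs1 h1 h2 hcont (by
      intro N₁ N₂ c1 c2 c3 c4
      obtain ⟨S₁, d1, d2, d3⟩ := exists_finset_core a₁ (σ := s) (n := N₁) (by rw [e₁]; exact c3)
      obtain ⟨S₂, f1, f2, f3⟩ := exists_finset_core a₂ (σ := s) (n := N₂) (by rw [e₂]; exact c4)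
      have h := le_helly_sum a₁ a₂ S₁ S₂ d1 f1 d3 f3
        (N := ⌈lead s (N₁ : ℕ∞) (N₂ : ℕ∞) - 4 - 10 / theta s (N₁ : ℕ∞) (N₂ : ℕ∞) ^ 2⌉₊) (by
          intro Q hQ hQ2
          obtain ⟨T, g1, g2, g3⟩ := hLOB U (X₁ ∪ X₂) s S₁ S₂ Q h33 (by rw [d2]; exact c1)
            (by rw [f2]; exact c2) (d1.trans Set.subset_union_left) (f1.trans Set.subset_union_right)
            hQ hQ2
          rw [d2, f2] at g3
          have g4 := Nat.ceil_le.2 g3
          obtain ⟨T', g5, g6⟩ := Finset.exists_subset_card_eq g4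
          refine ⟨(T' : Set U), (Finset.coe_subset.2 g5).trans g1, ?_, ?_⟩
          · rw [Set.encard_coe_eq_coe_finsetCard, g6]
          · intro O hO
            have g7 : (T' : Set U) ∩ O = ((T'.filter (fun f => f ∈ O) : Finset U) : Set U) := by
              ext z
              simp only [Set.mem_inter_iff, Finset.mem_coe, Finset.coe_filter, Set.mem_ofPred_eq]
            rw [g7, Set.encard_coe_eq_coe_finsetCard]
            have g8 := (Finset.card_le_card (Finset.filter_subset_filter (fun f => f ∈ O) g5)).trans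
              (g2 O hO)
            exact_mod_cast g8)
      rw [e] at h
      have h' : ⌈lead s (N₁ : ℕ∞) (N₂ : ℕ∞) - 4 - 10 / theta s (N₁ : ℕ∞) (N₂ : ℕ∞) ^ 2⌉₊ ≤ v := by
        exact_mod_cast h
      have h3 := Nat.le_ceil (lead s (N₁ : ℕ∞) (N₂ : ℕ∞) - 4 - 10 / theta s (N₁ : ℕ∞) (N₂ : ℕ∞) ^ 2)
      have h4 : ((⌈lead s (N₁ : ℕ∞) (N₂ : ℕ∞) - 4 - 10 / theta s (N₁ : ℕ∞) (N₂ : ℕ∞) ^ 2⌉₊ : ℕ) : ℝ) ≤ v := by
        exact_mod_cast h'
      have h5 := h3.trans h4
      rw [lead] at h5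
      exact h5)
    have key' : (s : ℝ) * (1 + theta s n₁ n₂) - 4 - 10 / theta s n₁ n₂ ^ 2 ≤ v := key
    rw [lead]
    linarith

end Pool.Agent.SHA.H22
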