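import Pool.Agent.SHA.StmtsB

set_option autoImplicit false

namespace Pool.Agent.SHA.H22

open Pool.Agent.Helper18_Helly

theorem ratio_nonneg (s : ℕ) (n : ℕ∞) : 0 ≤ ratio s n := by
  rw [ratio]
  split_ifs
  · exact le_rfl
  · positivity

theorem ratio_lt_one {s : ℕ} {n : ℕ∞} (h : (s : ℕ∞) < n) : ratio s n < 1 := by
  rcases eq_or_ne n ⊤ with h1 | h1
  · rw [h1, ratio_top]
    exact one_pos
  · obtain ⟨m, rfl⟩ := ENat.ne_top_iff_exists.1 h1
    have h2 : s < m := by exact_mod_cast h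
    rw [ratio_coe]
    have h3 : (s : ℝ) < m := by exact_mod_cast h2
    have h4 : (0 : ℝ) < m := lt_of_le_of_lt (Nat.cast_nonneg s) h3
    rw [div_lt_one h4]
    exact h3

theorem thp : THPStmt := by
  intro s n₁ n₂ _ h1 h2
  have a1 := ratio_lt_one h1
  have a2 := ratio_lt_one h2
  have b1 := ratio_nonneg s n₁
  have b2 := ratio_nonneg s n₂
  rw [theta]
  have h3 : ratio s n₁ * ratio s n₂ < 1 := by nlinarith
  exact div_pos (mul_pos (by linarith) (by linarith)) (by linarith)

end Pool.Agent.SHA.H22
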