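import Pool.Agent.SHA.Stmts

set_option autoImplicit false

namespace Pool.Agent.SHA.H22

open Pool.Agent.Helper18_Helly

universe u

theorem trv : TRVStmt.{u} := by
  classical
  intro U X s Q hs hP
  obtain ⟨W, hWX, hWc, hW1, hW2⟩ := hP.exists_finset
  have hone : ∀ O ∈ Q, (W.filter (fun f => f ∈ O)).card ≤ 1 := by
    intro O hO
    have h1 := hW1 O hO
    have h2 := Finset.card_filter_add_card_filter_not (s := W) (fun x => x ∈ O)
    have h3 : (W.filter (fun x => x ∉ O)).card + 1 = Q.card := by
      rw [← h1]
    omega
  rcases le_or_gt ((s - 1 : ℕ) : ℕ∞) (X \ (W : Set U)).encard with h | h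
  · left
    obtain ⟨A, hA, hAc⟩ := exists_finset_of_le h
    have hdis : Disjoint W A := by
      rw [Finset.disjoint_left]
      intro x hx hxA
      exact (hA hxA).2 hx
    refine ⟨W ∪ A, ?_, ?_, ?_⟩
    · intro x hx
      rw [Finset.mem_coe, Finset.mem_union] at hx
      rcases hx with hx | hx
      · exact hWX hx
      · exact (hA hx).1
    · rw [Finset.card_union_of_disjoint hdis, hWc, hAc]
    · intro O hO
      have h1 := hone O hO
      have h2 := Finset.card_filter_le A (fun f => f ∈ O)
      have h3 := Finset.card_union_le (W.filter (fun f => f ∈ O)) (A.filter (fun f => f ∈ O))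
      rw [← Finset.filter_union] at h3
      have h4 : ((W ∪ A).filter (fun f => f ∈ O)).card ≤ s := by omega
      exact (Finset.card_le_card (by
        intro x hx
        rw [Finset.mem_filter] at hx ⊢
        exact hx)).trans h4
  · right
    intro T hT O hO
    have h1 := hone O hO
    have h2 : (T \ W).card < s - 1 := by
      have h3 : ((T \ W : Finset U) : Set U) ⊆ X \ (W : Set U) := by
        intro x hx
        rw [Finset.mem_coe, Finset.mem_sdiff] at hx
        exact ⟨hT hx.1, hx.2⟩
      have h4 := (Set.encard_le_encard h3).trans_lt h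
      rw [Set.encard_coe_eq_coe_finsetCard] at h4
      exact_mod_cast h4
    have h5 : T.filter (fun f => f ∈ O) ⊆ (W.filter (fun f => f ∈ O)) ∪ (T \ W) := by
      intro x hx
      rw [Finset.mem_filter] at hx
      rw [Finset.mem_union, Finset.mem_filter, Finset.mem_sdiff]
      by_cases hxW : x ∈ W
      · exact Or.inl ⟨hxW, hx.2⟩
      · exact Or.inr ⟨hx.1, hxW⟩
    have h6 := (Finset.card_le_card h5).trans (Finset.card_union_le _ _)
    have h7 : (T.filter (fun f => f ∈ O)).card ≤ s := by omega
    exact (Finset.card_le_card (by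
      intro x hx
      rw [Finset.mem_filter] at hx ⊢
      exact hx)).trans h7

end Pool.Agent.SHA.H22
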